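import Pool.Agent.Helper75.FS.St

/-!
# Project FS, module B1 (bounds for `LL`)
-/

set_option autoImplicit false

namespace Pool.Agent.Helper80.FS

open Pool.Agent.Helper75.FS

theorem hB1 (hA4 : StA4) : StB1 := by
  obtain ⟨hA, hB, hC, hD, hE⟩ := hA4
  intro r hr
  have hr0 : 0 < r := hr
  -- every element is at least `1`
  have hone : ∀ n c : ℕ, Code n r c → (1 : ℝ) ≤ ((n : ℝ) + r) ^ r / ((r.factorial : ℝ) * 2 ^ c) := by
    intro n c h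
    have h1 : (2 : ℝ) ^ c ≤ ball n r := by exact_mod_cast hD n r c h
    have h2 : (2 : ℝ) ^ c ≤ ((n : ℝ) + r) ^ r / r.factorial := h1.trans (hE n r)
    have hf : (0 : ℝ) < r.factorial := by exact_mod_cast r.factorial_pos
    rw [le_div_iff₀ (by positivity)]
    rw [le_div_iff₀ hf] at h2
    linarith
  have hbdd : ∀ ρ : ℕ, BddBelow {x : ℝ | ∃ n c : ℕ, Code n r c ∧ c ≡ ρ [MOD r] ∧
      x = ((n : ℝ) + r) ^ r / ((r.factorial : ℝ) * 2 ^ c)} := by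
    intro ρ
    refine ⟨1, ?_⟩
    rintro x ⟨n, c, h1, -, rfl⟩
    exact hone n c h1
  have hmem : ∀ ρ : ℕ, ((((ρ % r : ℕ)) : ℝ) + r) ^ r / ((r.factorial : ℝ) * 2 ^ (ρ % r)) ∈
      {x : ℝ | ∃ n c : ℕ, Code n r c ∧ c ≡ ρ [MOD r] ∧
      x = ((n : ℝ) + r) ^ r / ((r.factorial : ℝ) * 2 ^ c)} := by
    intro ρ
    exact ⟨ρ % r, ρ % r, hB _ _ (Nat.mod_lt _ hr0).le, Nat.mod_modEq ρ r, rfl⟩
  refine ⟨fun ρ => ⟨?_, ?_⟩, ?_, ?_, ?_⟩
  · refine le_csInf ⟨_, hmem ρ⟩ ?_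
    rintro x ⟨n, c, h1, -, rfl⟩
    exact hone n c h1
  · refine (csInf_le (hbdd ρ) (hmem ρ)).trans ?_
    have h1 : (((ρ % r : ℕ)) : ℝ) ≤ r := by exact_mod_cast (Nat.mod_lt ρ hr0).le
    have h2 : ((((ρ % r : ℕ)) : ℝ) + r) ^ r ≤ (2 * (r : ℝ)) ^ r := by
      refine pow_le_pow_left₀ (by positivity) ?_ r
      linarith
    have hf : (1 : ℝ) ≤ r.factorial := by exact_mod_cast r.factorial_pos
    have h3 : (1 : ℝ) ≤ 2 ^ (ρ % r) := one_le_pow₀ (by norm_num)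
    have h4 : (1 : ℝ) ≤ (r.factorial : ℝ) * 2 ^ (ρ % r) := by nlinarith
    exact (div_le_self (by positivity) h4).trans h2
  · intro ρ ρ' h
    unfold LL
    congr 1
    ext x
    constructor
    · rintro ⟨n, c, h1, h2, h3⟩
      exact ⟨n, c, h1, h2.trans h, h3⟩
    · rintro ⟨n, c, h1, h2, h3⟩
      exact ⟨n, c, h1, h2.trans h.symm, h3⟩
  · intro n c h
    exact csInf_le (hbdd c) ⟨n, c, h, rfl, rfl⟩
  · intro ρ ε hε
    have h1 : LL r ρ < LL r ρ + ε := by linarith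
    obtain ⟨x, ⟨n, c, h2, h3, rfl⟩, h4⟩ := exists_lt_of_csInf_lt ⟨_, hmem ρ⟩ h1
    exact ⟨n, c, h2, h3, h4⟩

end Pool.Agent.Helper80.FS
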