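import Pool.Agent.Helper75.FS.St

/-!
# Project FS, module F2 (the limit superior)
-/

set_option autoImplicit false

namespace Pool.Agent.Helper80.FS

open Filter Pool.Agent.Helper75.FS

theorem hF2 (hB1 : StB1) (hB4 : StB4) (hB6 : StB6) : StF2 := by
  intro r hr
  have hr0 : 0 < r := hr
  obtain ⟨-, hmod, -, -⟩ := hB1 r hr
  haveI : Nonempty (Fin r) := ⟨⟨0, hr0⟩⟩
  obtain ⟨ρ0, hρ0⟩ := Finite.exists_max (fun ρ : Fin r => LL r ρ)
  have hmax : ∀ ρ : ℕ, LL r ρ ≤ LL r ρ0 := by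
    intro ρ
    have h1 : LL r ρ = LL r (ρ % r) := hmod _ _ (Nat.mod_modEq ρ r).symm
    rw [h1]
    exact hρ0 ⟨ρ % r, Nat.mod_lt _ hr0⟩
  have hS : (⨆ ρ : Fin r, ((2 * LL r ρ : ℝ) : EReal)) = ((2 * LL r ρ0 : ℝ) : EReal) := by
    apply le_antisymm
    · apply iSup_le
      intro ρ
      have := hmax ρ
      exact EReal.coe_le_coe_iff.2 (by linarith)
    · exact le_iSup (fun ρ : Fin r => ((2 * LL r ρ : ℝ) : EReal)) ρ0
  rw [hS]
  apply le_antisymm
  · apply le_of_forall_gt_imp_ge_of_dense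
    intro b hb
    obtain ⟨x, hx1, hx2⟩ := EReal.lt_iff_exists_real_btwn.1 hb
    have hx1' : 2 * LL r ρ0 < x := EReal.coe_lt_coe_iff.1 hx1
    refine le_trans ?_ hx2.le
    obtain ⟨N, hN⟩ := hB4 r hr (x - 2 * LL r ρ0) (by linarith)
    refine limsup_le_of_le (by isBoundedDefault) ?_
    filter_upwards [eventually_ge_atTop N] with n hn
    obtain ⟨ρ, -, -, h2⟩ := hN n hn
    have h3 := hmax (ρ + 1)
    exact EReal.coe_le_coe_iff.2 (by linarith)
  · apply le_of_forall_lt_imp_le_of_dense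
    intro b hb
    obtain ⟨x, hx1, hx2⟩ := EReal.lt_iff_exists_real_btwn.1 hb
    have hx2' : x < 2 * LL r ρ0 := EReal.coe_lt_coe_iff.1 hx2
    refine hx1.le.trans ?_
    have hsh : LL r ((ρ0 : ℕ) + (r - 1) + 1) = LL r ρ0 := by
      apply hmod
      have h1 : (ρ0 : ℕ) + (r - 1) + 1 = ρ0 + r := by omega
      rw [h1]
      exact Nat.add_modEq_right
    obtain ⟨-, h2, -⟩ := hB6 r hr ((ρ0 : ℕ) + (r - 1))
    refine le_limsup_of_frequently_le ?_ (by isBoundedDefault)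
    rw [frequently_atTop]
    intro N
    obtain ⟨n, hn1, hn2⟩ := h2 (2 * LL r ρ0 - x) (by linarith) N
    rw [hsh] at hn2
    exact ⟨n, hn1, EReal.coe_le_coe_iff.2 (by linarith)⟩

end Pool.Agent.Helper80.FS
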