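import Pool.Agent.Helper75.FS.St

/-!
# Project FS, module A1 (every covering code has a codimension)
-/

set_option autoImplicit false

namespace Pool.Agent.Helper80.FS

open Pool.Agent.Helper75.FS

theorem hA1 : StA1 := by
  intro n r V _
  have h1 : Nat.card V = 2 ^ (Module.finrank (ZMod 2) V) := by
    have h := Module.natCard_eq_pow_finrank (K := ZMod 2) (V := V)
    rwa [Nat.card_zmod] at h
  have h2 : Module.finrank (ZMod 2) V ≤ n := by
    have h := Submodule.finrank_le V
    rwa [Module.finrank_fin_fun] at h
  refine ⟨n - Module.finrank (ZMod 2) V, ?_⟩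
  rw [h1, ← pow_add, Nat.add_sub_cancel' h2]

end Pool.Agent.Helper80.FS
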